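import Mathlib

set_option autoImplicit false

namespace Pool.Agent.H.MP_73c65d_al

abbrev Rules := List (List ℕ × List ℕ)

def rw0 (s : List ℕ) : Rules → Option (List ℕ)
  | [] => none
  | r :: rs => if r.1.isPrefixOf s then some (r.2 ++ s.drop r.1.length) else rw0 s rs

def rw1 (rs : Rules) : List ℕ → Option (List ℕ)
  | [] => none
  | g :: s => match rw0 (g :: s) rs with
    | some x => some x
    | none => (rw1 rs s).map (g :: ·)

def red (rs : Rules) : ℕ → List ℕ → List ℕ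
  | 0, w => w
  | f + 1, w => match rw1 rs w with
    | some x => red rs f x
    | none => w

def ext (rs : Rules) : List (ℕ × ℕ × ℕ × Bool) → Rules
  | [] => rs
  | c :: cs =>
    let r1 := rs.getD c.1 ([], [])
    let r2 := rs.getD c.2.1 ([], [])
    let u := r1.1.take (r1.1.length - c.2.2.1)
    let w := r2.1.drop c.2.2.1
    if r1.1 ++ w = u ++ r2.1 then
      let p := red rs 40 (r1.2 ++ w)
      let q := red rs 40 (u ++ r2.2)
      ext (rs ++ [if c.2.2.2 then (p, q) else (q, p)]) cs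
    else rs

variable {G : Type*} [Group G] (a b : G)

def gen (g : ℕ) : G := if g = 0 then a else if g = 1 then b else b⁻¹
def ev (w : List ℕ) : G := (w.map (gen a b)).prod
def Ok (rs : Rules) : Prop := ∀ r ∈ rs, ev a b r.1 = ev a b r.2

lemma ev_app (u v : List ℕ) : ev a b (u ++ v) = ev a b u * ev a b v := by simp [ev]
lemma ev_cons (g : ℕ) (v : List ℕ) : ev a b (g :: v) = gen a b g * ev a b v := by simp [ev]

variable {a b}

lemma rw0_ok {s x : List ℕ} : ∀ {rs : Rules}, Ok a b rs → rw0 s rs = some x → ev a b x = ev a b s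
  | [], _, h => by simp [rw0] at h
  | r :: rs, ok, h => by
    unfold rw0 at h
    split_ifs at h with hp
    · obtain ⟨t, rfl⟩ := List.isPrefixOf_iff_prefix.1 hp
      obtain rfl := Option.some.inj h
      rw [List.drop_left, ev_app, ev_app, ok r (by simp)]
    · exact rw0_ok (fun r hr => ok r (List.mem_cons_of_mem _ hr)) h

lemma rw1_ok {rs : Rules} (ok : Ok a b rs) : ∀ {s x : List ℕ}, rw1 rs s = some x →
    ev a b x = ev a b s
  | [], _, h => by simp [rw1] at h
  | g :: s, x, h => by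
    unfold rw1 at h
    split at h
    · obtain rfl := Option.some.inj h
      exact rw0_ok ok ‹_›
    · obtain ⟨y, h1, rfl⟩ := Option.map_eq_some_iff.1 h
      rw [ev_cons, ev_cons, rw1_ok ok h1]

lemma red_ok {rs : Rules} (ok : Ok a b rs) : ∀ f w, ev a b (red rs f w) = ev a b w
  | 0, _ => rfl
  | f + 1, w => by
    unfold red
    split
    · rw [red_ok ok f, rw1_ok ok ‹_›]
    · rfl

lemma ext_ok : ∀ (cs : List (ℕ × ℕ × ℕ × Bool)) {rs : Rules}, Ok a b rs → Ok a b (ext rs cs)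
  | [], _, ok => ok
  | c :: cs, rs, ok => by
    have key : ∀ i, ev a b (rs.getD i ([], [])).1 = ev a b (rs.getD i ([], [])).2 := fun i => by
      rw [List.getD_eq_getElem?_getD]
      cases h : rs[i]? with
      | none => rfl
      | some r => exact ok r (List.mem_of_getElem? h)
    unfold ext
    simp only []
    split_ifs with h hb
    all_goals first | exact ok | refine ext_ok cs fun r hr => ?_
    all_goals
      rcases List.mem_append.1 hr with hr | hr
      · exact ok r hr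
      · obtain rfl := List.mem_singleton.1 hr
        have := congrArg (ev a b) h
        rw [ev_app, ev_app, key, key c.2.1] at this
        simp only [red_ok ok, ev_app, this]

def base : Rules := [([0, 0], []), ([1, 2], []), ([2, 1], []), ([1, 1], [2]),
  ([0, 1, 0, 1, 0, 1, 0, 1, 0, 1], [])]

def cert : List (ℕ × ℕ × ℕ × Bool) := [(2, 3, 1, false), (4, 1, 1, false), (6, 0, 1, false), (4, 7, 2, true), (0, 8, 1, true), (8, 1, 1, true), (8, 3, 1, false), (0, 11, 1, false), (3, 9, 1, false), (5, 10, 1, false), (12, 14, 3, true), (11, 13, 3, true), (3, 15, 1, false), (5, 16, 1, false), (13, 11, 1, true), (15, 17, 6, false)]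

def nf : List (List ℕ) := [[], [0], [1], [2], [1, 0], [2, 0], [0, 1], [0, 2], [0, 1, 0], [0, 2, 0], [1, 0, 1], [2, 0, 1], [1, 0, 2], [2, 0, 2], [1, 0, 1, 0], [2, 0, 1, 0], [1, 0, 2, 0], [2, 0, 2, 0], [0, 1, 0, 1], [0, 2, 0, 1], [0, 1, 0, 2], [0, 2, 0, 2], [0, 1, 0, 1, 0], [0, 2, 0, 1, 0], [0, 1, 0, 2, 0], [0, 2, 0, 2, 0], [2, 0, 1, 0, 1], [1, 0, 2, 0, 1], [2, 0, 2, 0, 1], [1, 0, 1, 0, 2], [2, 0, 1, 0, 2], [1, 0, 2, 0, 2], [1, 0, 2, 0, 1, 0], [2, 0, 2, 0, 1, 0], [1, 0, 1, 0, 2, 0], [2, 0, 1, 0, 2, 0], [0, 2, 0, 1, 0, 1], [0, 1, 0, 2, 0, 1], [0, 2, 0, 1, 0, 2], [0, 1, 0, 2, 0, 2], [0, 1, 0, 2, 0, 1, 0], [0, 2, 0, 1, 0, 2, 0], [1, 0, 2, 0, 1, 0, 1], [2, 0, 2, 0, 1, 0, 1], [1, 0, 1, 0, 2, 0, 1], [2, 0, 1, 0, 2, 0, 1], [1, 0, 2, 0, 1, 0, 2], [2, 0, 2, 0, 1, 0, 2], [1, 0, 1, 0, 2, 0, 2], [2, 0, 1, 0, 2, 0, 2], [0, 2, 0, 1, 0, 2, 0, 2], [2, 0, 1, 0, 2, 0, 1, 0], [1, 0, 2, 0, 1, 0, 2, 0], [0, 1, 0, 2, 0, 1, 0, 1], [0, 2, 0, 1, 0, 2, 0, 1], [0,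 1, 0, 2, 0, 1, 0, 2], [0, 2, 0, 1, 0, 2, 0, 1, 0], [0, 1, 0, 2, 0, 1, 0, 2, 0], [1, 0, 2, 0, 1, 0, 2, 0, 1], [0, 1, 0, 2, 0, 1, 0, 2, 0, 1]]

lemma chk : ∀ g ∈ [0, 1, 2], ∀ w ∈ nf, red (ext base cert) 40 (g :: w) ∈ nf := by decide +kernel

theorem card_le [Fintype G] (h1 : a ^ 2 = 1) (h2 : b ^ 3 = 1) (h3 : (a * b) ^ 5 = 1)
    (h : Subgroup.closure {a, b} = ⊤) : Fintype.card G ≤ 60 := by
  classical
  have ok : Ok a b (ext base cert) := ext_ok cert (by
    intro r hr
    simp only [base, List.mem_cons, List.not_mem_nil, or_false] at hr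
    rcases hr with rfl | rfl | rfl | rfl | rfl
    · simpa [ev, gen, pow_succ] using h1
    · simp [ev, gen]
    · simp [ev, gen]
    · simpa [ev, gen, pow_succ, eq_inv_iff_mul_eq_one] using h2
    · simpa [ev, gen, pow_succ, mul_assoc] using h3)
  have step : ∀ g ∈ [0, 1, 2], ∀ x ∈ nf.map (ev a b), gen a b g * x ∈ nf.map (ev a b) := by
    intro g hg x hx
    obtain ⟨w, hw, rfl⟩ := List.mem_map.1 hx
    rw [← ev_cons, ← red_ok ok 40]
    exact List.mem_map_of_mem (chk g hg w hw)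
  have all : ∀ x : G, x ∈ nf.map (ev a b) := by
    intro x
    have hx : x ∈ Subgroup.closure {a, b} := h ▸ Subgroup.mem_top x
    induction hx using Subgroup.closure_induction_left with
    | one => exact List.mem_map.2 ⟨[], by decide, rfl⟩
    | mul_left x hx y _ ih =>
      rcases hx with rfl | rfl
      · exact step 0 (by simp) _ ih
      · exact step 1 (by simp) _ ih
    | inv_mul_cancel x hx y _ ih =>
      rcases hx with rfl | rfl
      · rw [inv_eq_of_mul_eq_one_right (pow_two x ▸ h1)]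
        exact step 0 (by simp) _ ih
      · exact step 2 (by simp) _ ih
  calc Fintype.card G ≤ (nf.map (ev a b)).toFinset.card :=
        Finset.card_le_card fun x _ => List.mem_toFinset.2 (all x)
    _ ≤ (nf.map (ev a b)).length := List.toFinset_card_le _
    _ = 60 := by rw [List.length_map]; rfl

end Pool.Agent.H.MP_73c65d_al
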